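import Pool.Agent.Helper94.YF.St

/-! # Project YF (MP_2b6189_al), module INT: integrality -/

set_option autoImplicit false

namespace Pool.Agent.Helper95.YF

open Pool.Agent.Helper94.YF Matrix ComplexConjugate

private theorem U_add {L : ℕ} (x y : ZMod L) : (U (x + y) : SL L) = U x * U y := by
  apply Subtype.ext
  show !![1, x + y; 0, 1] = !![1, x; 0, 1] * !![1, y; 0, 1]
  rw [Matrix.mul_fin_two]
  simp [add_comm]

private theorem U_pow {L : ℕ} (k : ℕ) : (U 1 : SL L) ^ k = U (k : ZMod L) := by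
  induction k with
  | zero =>
    rw [pow_zero, Nat.cast_zero]
    apply Subtype.ext
    show (1 : Matrix (Fin 2) (Fin 2) (ZMod L)) = !![1, 0; 0, 1]
    exact Matrix.one_fin_two
  | succ k ih => rw [pow_succ, ih, ← U_add, Nat.cast_succ]

private theorem th_pow {I : Type} [Fintype I] [DecidableEq I] (Z : CentreRep I) (i : I) :
    Z.th i ^ Z.L = 1 := by
  have h1 : (U 1 : SL Z.L) ^ Z.L = 1 := by
    rw [U_pow, ZMod.natCast_self]
    apply Subtype.ext
    show !![1, (0 : ZMod Z.L); 0, 1] = 1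
    exact Matrix.one_fin_two.symm
  have h2 : Z.rho (U 1) ^ Z.L = 1 := by
    rw [← map_pow, h1, map_one]
  rw [Z.rho_T, Matrix.diagonal_pow] at h2
  have h3 := congrFun (congrFun h2 i) i
  rw [Matrix.diagonal_apply_eq, Matrix.one_apply_eq] at h3
  exact h3

theorem hINT : StINT := by
  intro I _ _ Z g i t hg
  have : NeZero Z.L := ⟨Z.L_pos.ne'⟩
  set k : ℕ := (g 1 0).val + Z.L with hk
  set l : ℕ := 1 + t.val * k with hl
  have hk0 : 0 < k := by
    have := Z.L_pos
    omega
  have hg1 : l.gcd k = 1 := by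
    rw [hl, Nat.gcd_comm, Nat.gcd_add_mul_right_right]
    exact Nat.gcd_one_right k
  have hkz : (k : ZMod Z.L) = g 1 0 := by
    rw [hk, Nat.cast_add, ZMod.natCast_zmod_val, ZMod.natCast_self, add_zero]
  have hlz : (l : ZMod Z.L) = g 0 0 := by
    rw [hl, Nat.cast_add, Nat.cast_mul, hkz, Nat.cast_one, ZMod.natCast_zmod_val, hg]
  obtain ⟨M, lam, h1, h2⟩ := Z.indicator i k hk0
  have h3 := h2 l g (by rw [hg1, Nat.div_one, hlz]) (by rw [hg1, Nat.div_one, hkz])
  rw [hg1, pow_one] at h3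
  rw [← h3]
  refine IsIntegral.sum _ fun r _ => ?_
  refine IsIntegral.pow ?_ l
  refine IsIntegral.of_pow (n := k * Z.L) (Nat.mul_pos hk0 Z.L_pos) ?_
  rw [pow_mul, h1 r, th_pow]
  exact isIntegral_one

end Pool.Agent.Helper95.YF
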